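import Pool.Agent.W737.WA.Stepl0
import Pool.Agent.W378.WA.SC1
import Pool.Agent.W800.WA.Sc2
import Pool.Agent.W991.WA.Scl
import Pool.Agent.W881.WA.Gain
import Pool.Agent.W683.WA.Symb
import Pool.Agent.W298.WA.Csym
import Pool.Agent.W19.WAPsi
import Pool.Agent.W74.WA.Ql
import Pool.Agent.W308.WA.Inf2
import Pool.Agent.W18.WA.Freel
import Pool.Agent.W563.WA.Free
import Pool.Agent.W214.WA.Small
import Pool.Agent.W298.WA.Vit1
import Pool.Agent.W391.WA.Vit2
import Pool.Agent.W973.WA.Holp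
import Pool.Agent.W636.WAHolc
import Pool.Agent.W585.WA.Holu
import Pool.Agent.W589.WA.Uuc
import Pool.Agent.W376.WAFix
import Pool.Agent.W571.WAHolf
import Pool.Agent.W293.WA.C1
import Pool.Agent.W701.WA.Stab
import Pool.Agent.W402.WAUni
import Pool.Agent.W382.WA.Cx
import Pool.Agent.W915.WAPsiw
import Pool.Agent.W304.WA.Zfw

/-!
`S_STEPL`, all hypotheses discharged.
-/

namespace Pool.Agent.W737.WA.Steplf

open Pool.Agent.W792.LL Pool.Agent.W792.WA

theorem sc1 : S_SC1 := Pool.Agent.W378.WA.SC1.main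
theorem sc2 : S_SC2 := Pool.Agent.W800.WA.Sc2.main sc1
theorem scl : S_SCL := Pool.Agent.W991.WA.Scl.main sc1
theorem gain : S_GAIN := Pool.Agent.W881.WA.Gain.main sc1
theorem symb : S_SYMB := Pool.Agent.W683.WA.main
theorem csym : S_CSYM := Pool.Agent.W298.WA.Csym.main symb
theorem psi : S_PSI := Pool.Agent.W19.WAPsi.main symb csym
theorem ql : S_QL := Pool.Agent.W74.WA.QL.main
theorem inf : S_INF := Pool.Agent.W308.WAInf.main
theorem freel : S_FREEL := Pool.Agent.W18.WA.Freel.main inf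
theorem free : S_FREE := Pool.Agent.W563.WA.Free.main freel ql
theorem small : S_SMALL := Pool.Agent.W214.WA.main symb csym psi ql free
theorem vit1 : S_VIT1 := Pool.Agent.W298.WA.Vit1.main
theorem vit2 : S_VIT2 := Pool.Agent.W391.WA.Vit2.main
theorem holp : S_HOLP := Pool.Agent.W973.WA.Holp.main
theorem holc : S_HOLC := Pool.Agent.W636.WAHolc.main symb csym psi holp
theorem holu : S_HOLU := Pool.Agent.W585.WA.Holu.main sc1 holp
theorem uuc : S_UUC := Pool.Agent.W589.WA.Uuc.main sc1
theorem fix : S_FIX := Pool.Agent.W376.WAFix.main sc2 psi uuc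
theorem holf : S_HOLF := Pool.Agent.W571.WAHolf.main sc1 sc2 psi uuc holc holu fix
theorem c1 : S_C1 := Pool.Agent.W293.WA.C1.main symb csym psi uuc fix holc holf vit1 vit2 small
theorem stab : S_STAB := Pool.Agent.W701.WA.Stab.main psi uuc fix
theorem cx : S_CX := Pool.Agent.W382.WACx.main
theorem uni : S_UNI := Pool.Agent.W402.WAUni.main sc1 scl gain psi uuc fix stab cx
theorem psiw : S_PSIW := Pool.Agent.W915.WA.main symb csym psi
theorem zfw : S_ZFW := Pool.Agent.W304.WA.Zfw.main symb csym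

theorem main : S_STEPL :=
  Pool.Agent.W737.WA.Stepl.main0 sc1 scl gain psi uuc fix stab cx uni c1 psiw zfw

end Pool.Agent.W737.WA.Steplf
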