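import Pool.Agent.W792.WA.Stm5
import Pool.Agent.W685.WA.Step
import Pool.Agent.W930.WA.Step2

/-!
Adding one level, uniformly over a totally bounded set of laws, for any atomless level function
(part WA-STEPL). Port of `Pool.Agent.W685.WA.Step` and `Pool.Agent.W930.WA.Step2`.
-/

namespace Pool.Agent.W737.WA.Stepl

open MeasureTheory Filter Pool.Agent.W792.LL Pool.Agent.W792.WA
open Pool.Agent.W685.WA.Step hiding lev_supp lev_atom conv_supp conv_atom conv_two fixed_z norm_x_le main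
open Pool.Agent.W930.WA.Step2 hiding main
open scoped Topology

noncomputable section

theorem lev_supp {ψ : C(UnitAddCircle, ℝ)} (hψ : IsLv ψ) {l : ℝ} (hl : 0 < l) :
    ∀ᵐ a ∂(lev ψ l), |a| ≤ l := by
  unfold lev
  rw [ae_map_iff (meas_lev ψ l).aemeasurable (measurableSet_le (by fun_prop) (by fun_prop))]
  filter_upwards with φ
  rw [abs_mul, abs_of_pos hl]
  nlinarith [hψ.bound (φ : UnitAddCircle)]

theorem lev_atom {ψ : C(UnitAddCircle, ℝ)} (hψ : IsLv ψ) {l : ℝ} (hl : 0 < l) (a : ℝ) :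
    lev ψ l {a} = 0 := by
  unfold lev
  rw [Measure.map_apply (meas_lev ψ l) (measurableSet_singleton a),
    Measure.restrict_apply ((meas_lev ψ l) (measurableSet_singleton a))]
  have : (fun φ : ℝ => l * ψ (φ : UnitAddCircle)) ⁻¹' {a} ∩ Set.Ioc 0 1
      = {φ : ℝ | φ ∈ Set.Ioc (0 : ℝ) 1 ∧ ψ (φ : UnitAddCircle) = a / l} := by
    ext φ
    simp only [Set.mem_inter_iff, Set.mem_preimage, Set.mem_singleton_iff, Set.mem_ofPred_eq]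
    rw [eq_div_iff hl.ne', mul_comm (ψ (φ : UnitAddCircle)) l]
    tauto
  rw [this]
  exact hψ.atom _

theorem conv_supp {ψ : C(UnitAddCircle, ℝ)} (hψ : IsLv ψ) {l : ℝ} (hl : 0 < l)
    {ρ : Measure ℝ} [IsProbabilityMeasure ρ] {C : ℝ} (hρ : ρ (Set.Icc (-C) C)ᶜ = 0) :
    ((lev ψ l).conv ρ) (Set.Icc (-(C + l)) (C + l))ᶜ = 0 := by
  have := prob_lev ψ l
  have h1 : ∀ᵐ p ∂((lev ψ l).prod ρ), p.1 + p.2 ∈ Set.Icc (-(C + l)) (C + l) := by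
    have a1 : ∀ᵐ p ∂((lev ψ l).prod ρ), |p.1| ≤ l :=
      Measure.quasiMeasurePreserving_fst.ae (lev_supp hψ hl)
    have a2 : ∀ᵐ p ∂((lev ψ l).prod ρ), p.2 ∈ Set.Icc (-C) C := by
      have : ∀ᵐ b ∂ρ, b ∈ Set.Icc (-C) C := by
        rw [ae_iff]; exact hρ
      exact Measure.quasiMeasurePreserving_snd.ae this
    filter_upwards [a1, a2] with p h1 h2
    have := abs_le.1 h1
    constructor <;> linarith [h2.1, h2.2]
  rw [Measure.conv, Measure.map_apply (by fun_prop) measurableSet_Icc.compl]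
  exact ae_iff.1 h1

theorem conv_atom {ψ : C(UnitAddCircle, ℝ)} (hψ : IsLv ψ) {l : ℝ} (hl : 0 < l)
    {ρ : Measure ℝ} [IsProbabilityMeasure ρ] (a : ℝ) : ((lev ψ l).conv ρ) {a} = 0 := by
  have := prob_lev ψ l
  have hms : MeasurableSet ((fun x : ℝ × ℝ => x.1 + x.2) ⁻¹' {a}) :=
    (measurable_fst.add measurable_snd) (measurableSet_singleton a)
  rw [Measure.conv, Measure.map_apply (by fun_prop) (measurableSet_singleton a),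
    Measure.prod_apply_symm hms]
  rw [lintegral_eq_zero_iff' (measurable_measure_prodMk_right hms).aemeasurable]
  filter_upwards with y
  have : (fun x : ℝ => (x, y)) ⁻¹' ((fun x : ℝ × ℝ => x.1 + x.2) ⁻¹' {a}) = {a - y} := by
    ext x
    simp only [Set.mem_preimage, Set.mem_singleton_iff]
    constructor <;> intro h <;> linarith
  rw [this]
  exact lev_atom hψ hl _

theorem conv_two {ψ : C(UnitAddCircle, ℝ)} (hψ : IsLv ψ) {l : ℝ} (hl : 0 < l)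
    {ρ : Measure ℝ} [IsProbabilityMeasure ρ] (a b : ℝ) : ((lev ψ l).conv ρ) {a, b} < 1 := by
  have h : ((lev ψ l).conv ρ) {a, b} ≤ 0 := by
    calc ((lev ψ l).conv ρ) {a, b} = ((lev ψ l).conv ρ) ({a} ∪ {b}) := by rfl
      _ ≤ ((lev ψ l).conv ρ) {a} + ((lev ψ l).conv ρ) {b} := measure_union_le _ _
      _ = 0 := by rw [conv_atom hψ hl, conv_atom hψ hl, add_zero]
  exact lt_of_le_of_lt h zero_lt_one

theorem fixed_z (hSC1 : S_SC1) (hSCL : S_SCL) (hCX : S_CX) (hUUC : S_UUC) (hC1 : S_C1)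
    (ν : Measure ℝ) [IsProbabilityMeasure ν] {d : ℕ} (hd : 0 < d) (hvr : 0 < vr ν)
    {ψ : C(UnitAddCircle, ℝ)} (hψ : IsLv ψ) (ρ : Measure ℝ) [IsProbabilityMeasure ρ] {C : ℝ}
    (hρ : ρ (Set.Icc (-C) C)ᶜ = 0) {l : ℝ} (hl : 0 < l) (K : C(UnitAddTorus (Fin d), ℝ)) {σ : ℝ}
    (hσ : 0 < σ) {q : ℝ} (hq0 : 0 ≤ q) (hq : q < 1) {z : ℂ} (hz : 0 ≤ z.im)
    {s : C(UnitAddTorus (Fin d), ℂ)} (hfix : IsFix ν ((lev ψ l).conv ρ) (wz K z) s)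
    (hs : ‖s‖ ≤ 1 - σ) (hW : ∀ p, ‖Wf ρ ψ l K z s p‖ ≤ q)
    (hU : ‖UU ((lev ψ l).conv ρ) (wz K z) s‖ ≤ q) (e : ℝ) (he : 0 < e) :
    ∃ M₀ : ℕ, ∀ M : ℕ, M₀ ≤ M → ‖psi ν (UU ρ (wz (addL ψ K l M) z) s) - s‖ ≤ e ∧
      ∫ v, ‖Zf (UU ρ (wz (addL ψ K l M) z) s) (fun x => cay (v x))
        - Zf (UU ((lev ψ l).conv ρ) (wz K z) s) (fun x => cay (v x))‖ ∂(Pn ν (Fin d → ℤ)) ≤ e := by
  have := prob_lev ψ l
  have hWn : ‖WC hSCL hCX ρ ψ l K hσ hz hs‖ ≤ q := (ContinuousMap.norm_le _ hq0).2 hW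
  have hs1 : ‖s‖ < 1 := by linarith
  have key : ∀ k, UU ((lev ψ l).conv ρ) (wz K z) s k
      / (1 - UU ((lev ψ l).conv ρ) (wz K z) s k * s k)
      = ∫ φ in Set.Ioc (0 : ℝ) 1, WC hSCL hCX ρ ψ l K hσ hz hs (k, (φ : UnitAddCircle))
        / (1 - WC hSCL hCX ρ ψ l K hσ hz hs (k, φ) * s k) := by
    intro k
    have hk : ‖s k‖ ≤ 1 - σ := (s.norm_coe_le_norm k).trans hs
    rw [UU_apply hCX hUUC ((lev ψ l).conv ρ) (conv_supp hψ hl hρ) K hz hs1 k]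
    have h1 := (hSC1 ((lev ψ l).conv ρ) (cayx ((K k : ℂ) - z)) 1 (s k) (meas_cayx _) zero_le_one
      le_rfl (ae_of_all _ fun a => (hCX.1 _ a (im_le hz _)).1) (by linarith) (by linarith)).2.2.2.2
    rw [h1, conv_Bs hCX hσ (im_le hz _) hk]
    refine integral_congr_ae (ae_of_all _ fun φ => ?_)
    have h2 := (hSC1 ρ (cayx (((K k + l * ψ (φ : UnitAddCircle) : ℝ) : ℂ) - z)) 1 (s k)
      (meas_cayx _) zero_le_one le_rfl (ae_of_all _ fun a => (hCX.1 _ a (im_le hz _)).1)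
      (by linarith) (by linarith)).2.2.2.2
    have h3 : ((K k : ℂ) - z + ((l * ψ (φ : UnitAddCircle) : ℝ) : ℂ))
        = (((K k + l * ψ (φ : UnitAddCircle) : ℝ) : ℂ) - z) := by
      push_cast
      ring
    show Bs ρ (cayx ((K k : ℂ) - z + ((l * ψ (φ : UnitAddCircle) : ℝ) : ℂ))) (s k) = _
    rw [h3]
    exact h2.symm
  obtain ⟨M₀, hM₀⟩ := hC1 ν d hd hvr q (WC hSCL hCX ρ ψ l K hσ hz hs) s
    (UU ((lev ψ l).conv ρ) (wz K z) s) hq hWn hU hfix.1 hfix.2 key e he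
  refine ⟨M₀, fun M hM => ?_⟩
  rw [UU_eq_WM hSCL hCX hUUC ρ hρ ψ l K hσ hz hs M]
  exact hM₀ M hM

theorem norm_x_le {d : ℕ} {ψ : C(UnitAddCircle, ℝ)} (hψ : IsLv ψ) {l : ℝ} (hl : 0 < l)
    (K : C(UnitAddTorus (Fin d), ℝ)) {z : ℂ} (hz : z ∈ Zs d) (k : UnitAddTorus (Fin d))
    (t : UnitAddCircle) : ‖((K k + l * ψ t : ℝ) : ℂ) - z‖ ≤ ‖K‖ + l + 4 * d + 1 := by
  obtain ⟨h1, h2, h3, h4⟩ := hz
  have hzn := Complex.norm_le_abs_re_add_abs_im z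
  rw [abs_of_nonneg h1, abs_of_pos h3] at hzn
  have h5 : ‖((K k + l * ψ t : ℝ) : ℂ)‖ ≤ ‖K‖ + l := by
    rw [Complex.norm_real]
    refine (norm_add_le _ _).trans (add_le_add (K.norm_coe_le_norm k) ?_)
    rw [Real.norm_eq_abs, abs_mul, abs_of_pos hl]
    nlinarith [hψ.bound t]
  have := norm_sub_le ((K k + l * ψ t : ℝ) : ℂ) z
  linarith

/-- `S_STEP` for any level function. -/
def S_STEPI : Prop :=
  ∀ (ν : Measure ℝ) [IsProbabilityMeasure ν] (d : ℕ) (ψ : C(UnitAddCircle, ℝ))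
    (ρ : Measure ℝ) [IsProbabilityMeasure ρ] (C σ l : ℝ) (K : C(UnitAddTorus (Fin d), ℝ)),
    0 < d → IsLv ψ → 0 < vr ν → ρ (Set.Icc (-C) C)ᶜ = 0 → (∀ a b : ℝ, ρ {a, b} < 1) →
    0 < l → 0 < σ → (∀ z ∈ Zs d, ∀ s, IsFix ν ((lev ψ l).conv ρ) (wz K z) s → ‖s‖ ≤ 1 - σ) →
    ∀ e : ℝ, 0 < e → ∃ M₀ : ℕ, ∀ M : ℕ, M₀ ≤ M → ∀ z ∈ Zs d, ∀ s s',
      IsFix ν ((lev ψ l).conv ρ) (wz K z) s → IsFix ν ρ (wz (addL ψ K l M) z) s' →
      ‖s - s'‖ ≤ e ∧ ∫ v, ‖Zf (UU ((lev ψ l).conv ρ) (wz K z) s) (fun x => cay (v x))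
        - Zf (UU ρ (wz (addL ψ K l M) z) s') (fun x => cay (v x))‖ ∂(Pn ν (Fin d → ℤ)) ≤ e

theorem stepi : S_SC1 → S_SCL → S_GAIN → S_PSI → S_UUC → S_FIX → S_STAB → S_CX → S_UNI → S_C1 →
    S_STEPI := by
  intro hSC1 hSCL hGAIN hPSI hUUC hFIX hSTAB hCX hUNI hC1 ν _ d ψ ρ _ C σ l K hd hψ hvr hρ htwo
    hl hσ hbnd e he
  have hO : S_OPR := Pool.Agent.W918.LL.main
  have hCay : S_CAY := Pool.Agent.W335.LLCay.main
  have hZ : S_ZF := Pool.Agent.W762.LL.main hO Pool.Agent.W792.LL.DiaP.main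
  have hM : S_MZ := Pool.Agent.W978.LL.main hO Pool.Agent.W792.LL.DiaP.main hZ hCay
  have := prob_lev ψ l
  have hρ0s : ((lev ψ l).conv ρ) (Set.Icc (-(C + l)) (C + l))ᶜ = 0 := conv_supp hψ hl hρ
  obtain ⟨huniq, ⟨q0, hq00, hq01, hq0⟩, hcont⟩ :=
    hUNI ν d ((lev ψ l).conv ρ) (C + l) σ K hvr hρ0s (conv_two hψ hl) hσ hbnd
  obtain ⟨γ, hγ0, hγ1, hgain⟩ :=
    hGAIN ρ C (‖K‖ + l + 4 * d + 1) (σ / 2) hρ htwo (half_pos hσ)
  obtain ⟨q, hq⟩ : ∃ q, q = max (Real.sqrt (1 - γ)) q0 := ⟨_, rfl⟩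
  have hqq0 : q0 ≤ q := hq ▸ le_max_right _ _
  have hqs : Real.sqrt (1 - γ) ≤ q := hq ▸ le_max_left _ _
  have hq00' : 0 ≤ q := hq00.trans hqq0
  have hq1 : q < 1 := by
    rw [hq]
    refine max_lt ?_ hq01
    rw [Real.sqrt_lt' one_pos]
    linarith
  have hσ2 : 0 < σ / 2 := half_pos hσ
  -- the symbols have norm at most `q`
  have hWp : ∀ z ∈ Zs d, ∀ (k : UnitAddTorus (Fin d)) (t : UnitAddCircle) (a : ℂ),
      ‖a‖ ≤ 1 - σ / 2 → ‖Us ρ (cayx (((K k + l * ψ t : ℝ) : ℂ) - z)) a‖ ≤ q := by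
    intro z hz k t a ha
    have h := (hgain (((K k + l * ψ t : ℝ) : ℂ) - z) 0 a (norm_x_le hψ hl K hz k t)
      (im_le hz.2.2.1.le _) (by simp) ha).2
    exact (Real.le_sqrt_of_sq_le h).trans hqs
  have hWn : ∀ z ∈ Zs d, ∀ (M : ℕ) (s : C(UnitAddTorus (Fin d), ℂ)), ‖s‖ ≤ 1 - σ / 2 →
      ‖UU ρ (wz (addL ψ K l M) z) s‖ ≤ q := by
    intro z hz M s hs
    refine (ContinuousMap.norm_le _ hq00').2 fun k => ?_
    rw [UU_apply hCX hUUC ρ hρ _ hz.2.2.1.le (by linarith)]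
    exact hWp z hz k _ _ ((s.norm_coe_le_norm k).trans hs)
  -- constants
  obtain ⟨L, hL⟩ : ∃ L, L = 8 / (σ / 2) ^ 2 := ⟨_, rfl⟩
  have hLpos : 0 < L := by rw [hL]; positivity
  obtain ⟨B, hB⟩ : ∃ B, B = 1 / (1 - q) ^ 2 := ⟨_, rfl⟩
  have h1q : 0 < 1 - q := by linarith
  have hBpos : 0 < B := by rw [hB]; positivity
  obtain ⟨e3, he3⟩ : ∃ e3, e3 = min (min 1 e) (min (σ / 2) (e / (2 * L * B))) := ⟨_, rfl⟩
  have he3pos : 0 < e3 := by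
    rw [he3]
    exact lt_min (lt_min one_pos he) (lt_min hσ2 (by positivity))
  have he31 : e3 ≤ 1 := he3 ▸ (min_le_left _ _).trans (min_le_left _ _)
  have he3e : e3 ≤ e := he3 ▸ (min_le_left _ _).trans (min_le_right _ _)
  have he3σ : e3 ≤ σ / 2 := he3 ▸ (min_le_right _ _).trans (min_le_left _ _)
  have he3B : L * e3 * B ≤ e / 2 := by
    have h : e3 ≤ e / (2 * L * B) := he3 ▸ (min_le_right _ _).trans (min_le_right _ _)
    rw [le_div_iff₀ (by positivity)] at h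
    linarith
  obtain ⟨e2, he2⟩ : ∃ e2, e2 = min (σ / 2 * γ * e3 ^ 2 / 28) (e / 2) := ⟨_, rfl⟩
  have he2pos : 0 < e2 := by
    rw [he2]
    exact lt_min (by positivity) (by positivity)
  have he2a : 28 * e2 ≤ σ / 2 * γ * e3 ^ 2 := by
    have h : e2 ≤ σ / 2 * γ * e3 ^ 2 / 28 := he2 ▸ min_le_left _ _
    linarith
  have he2b : e2 ≤ e / 2 := he2 ▸ min_le_right _ _
  have he2c : 28 * e2 ≤ σ / 2 * γ := by
    refine he2a.trans ?_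
    have : e3 ^ 2 ≤ 1 := pow_le_one₀ he3pos.le he31
    have h2 : 0 ≤ σ / 2 * γ := by positivity
    nlinarith
  obtain ⟨e4, he4⟩ : ∃ e4, e4 = e2 / (4 * (1 + B + 3 * L * B)) := ⟨_, rfl⟩
  have he4pos : 0 < e4 := by rw [he4]; positivity
  have he4e : e4 * (4 * (1 + B + 3 * L * B)) = e2 := by
    rw [he4]
    field_simp
  have hLB : 0 < L * B := by positivity
  have he4a : e4 + e4 * B + 3 * L * e4 * B = e2 / 4 := by nlinarith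
  have hp1 : 0 < e4 * B := by positivity
  have hp2 : 0 < 3 * L * e4 * B := by positivity
  obtain ⟨θ, hθ, hunif⟩ := hcont e4 he4pos
  -- the fixed energies
  have hfz : ∀ z ∈ Zs d, ∀ᶠ M : ℕ in atTop, ∀ s, IsFix ν ((lev ψ l).conv ρ) (wz K z) s →
      (‖psi ν (UU ρ (wz (addL ψ K l M) z) s) - s‖ ≤ e2 / 4 ∧
      ∫ v, ‖Zf (UU ρ (wz (addL ψ K l M) z) s) (fun x => cay (v x))
        - Zf (UU ((lev ψ l).conv ρ) (wz K z) s) (fun x => cay (v x))‖ ∂(Pn ν (Fin d → ℤ))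
          ≤ e2 / 4) := by
    intro z hz
    obtain ⟨s, hs, hu⟩ := huniq z hz
    have hsn : ‖s‖ ≤ 1 - σ := hbnd z hz s hs
    have hsn2 : ‖s‖ ≤ 1 - σ / 2 := by linarith
    obtain ⟨M₀, hM₀⟩ := fixed_z hSC1 hSCL hCX hUUC hC1 ν hd hvr hψ ρ hρ hl K hσ2 hq00' hq1
      hz.2.2.1.le hs hsn2 (fun p => hWp z hz _ _ _ ((s.norm_coe_le_norm _).trans hsn2))
      ((hq0 z hz s hs).trans hqq0) (e2 / 4) (by positivity)
    filter_upwards [eventually_ge_atTop M₀] with M hM s' hs'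
    rw [hu s' hs']
    exact hM₀ M hM
  obtain ⟨t, htZ, htf, htc⟩ := Metric.finite_approx_of_totallyBounded (tb_Zs d) (min θ e4)
    (lt_min hθ he4pos)
  obtain ⟨M₀, hM₀⟩ := eventually_atTop.1 ((eventually_all_finite htf).2 fun y hy =>
    hfz y (htZ hy))
  refine ⟨M₀, fun M hMM z hz s s' hs hs' => ?_⟩
  obtain ⟨y, hy, hyz⟩ := Set.mem_iUnion₂.1 (htc hz)
  rw [Metric.mem_ball, dist_eq_norm] at hyz
  have hyZ := htZ hy
  have hzy1 : ‖z - y‖ ≤ θ := hyz.le.trans (min_le_left _ _)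
  have hzy2 : ‖z - y‖ ≤ e4 := hyz.le.trans (min_le_right _ _)
  obtain ⟨r, hr, -⟩ := huniq y hyZ
  obtain ⟨hsr, hUr⟩ := hunif z hz y hyZ hzy1 s r hs hr
  obtain ⟨hp, hi⟩ := hM₀ M hMM y hy r hr
  have hsn : ‖s‖ ≤ 1 - σ := hbnd z hz s hs
  have hsn2 : ‖s‖ ≤ 1 - σ / 2 := by linarith
  have hrn : ‖r‖ ≤ 1 - σ := hbnd y hyZ r hr
  have hrn2 : ‖r‖ ≤ 1 - σ / 2 := by linarith
  have hzi := hz.2.2.1.le
  have hyi := hyZ.2.2.1.le
  have hWz := hWn z hz M s hsn2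
  have hWy := hWn y hyZ M r hrn2
  have hUz : ‖UU ((lev ψ l).conv ρ) (wz K z) s‖ ≤ q := (hq0 z hz s hs).trans hqq0
  have hUy : ‖UU ((lev ψ l).conv ρ) (wz K y) r‖ ≤ q := (hq0 y hyZ r hr).trans hqq0
  have hWW : ‖UU ρ (wz (addL ψ K l M) z) s - UU ρ (wz (addL ψ K l M) y) r‖ ≤ 3 * L * e4 := by
    refine (UU_lip hSCL hCX hUUC ρ hρ _ hσ2 hzi hyi hsn2 hrn2).trans ?_
    rw [← hL]
    nlinarith
  have hdiv : ∀ a b : ℝ, 0 ≤ a → a ≤ b → a / (1 - q) ^ 2 ≤ b * B := by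
    intro a b _ hab
    rw [hB, mul_one_div]
    gcongr
  have hpsi : ‖psi ν (UU ρ (wz (addL ψ K l M) z) s) - psi ν (UU ρ (wz (addL ψ K l M) y) r)‖
      ≤ 3 * L * e4 * B := by
    refine ((hPSI ν d q _ _ hq00' hq1 hWz hWy).2.2).trans ?_
    refine le_trans ?_ (hdiv _ _ (norm_nonneg _) hWW)
    have h1 : (1 - q) ^ 2 ≤ 1 - q ^ 2 := by nlinarith
    exact div_le_div_of_nonneg_left (norm_nonneg _) (by positivity) h1
  have hpz : ‖psi ν (UU ρ (wz (addL ψ K l M) z) s) - s‖ ≤ e2 := by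
    have h1 := norm_sub_le_norm_sub_add_norm_sub (psi ν (UU ρ (wz (addL ψ K l M) z) s))
      (psi ν (UU ρ (wz (addL ψ K l M) y) r)) s
    have h2 := norm_sub_le_norm_sub_add_norm_sub (psi ν (UU ρ (wz (addL ψ K l M) y) r)) r s
    rw [norm_sub_rev r s] at h2
    linarith
  have hiz : ∫ v, ‖Zf (UU ((lev ψ l).conv ρ) (wz K z) s) (fun x => cay (v x))
      - Zf (UU ρ (wz (addL ψ K l M) z) s) (fun x => cay (v x))‖ ∂(Pn ν (Fin d → ℤ)) ≤ e / 2 := by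
    have h1 := zf_tri hZ hM hCay ν hq00' hq1 hUz hUy hWz
    have h2 := zf_tri hZ hM hCay ν hq00' hq1 hUy hWy hWz
    have h3 := (zf_int hZ hM hCay ν hq00' hq1 hUz hUy).2.trans (hdiv _ _ (norm_nonneg _) hUr)
    have h4 := (zf_int hZ hM hCay ν hq00' hq1 hWz hWy).2.trans (hdiv _ _ (norm_nonneg _) hWW)
    rw [zf_sym ν (UU ρ (wz (addL ψ K l M) z) s)] at h4
    rw [zf_sym ν (UU ρ (wz (addL ψ K l M) y) r) (UU ((lev ψ l).conv ρ) (wz K y) r)] at hi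
    linarith
  -- stability
  obtain ⟨q', hq'0, hq'1, hq'⟩ := hCX.2.2.1 C (‖K‖ + l + 4 * d + 1) z.im hz.2.2.1
  have hwq : ∀ k, ∀ a ∈ Set.Icc (-C) C, ‖wz (addL ψ K l M) z k a‖ ≤ q' := by
    intro k a ha
    refine hq' _ a (norm_x_le hψ hl K hz k _) ?_ (abs_le.2 ha)
    rw [Complex.sub_im, Complex.ofReal_im]
    linarith
  have hwc := hCX.2.2.2 d (addL ψ K l M) z hzi
  have hs'1 : ‖s'‖ < 1 := by
    refine (ContinuousMap.norm_lt_iff _ one_pos).2 fun k => ?_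
    have h1 := (hFIX ν d ρ C q' (wz (addL ψ K l M) z) hvr hρ hwc hq'0 hq'1 hwq).2.1 s' hs' k
    have h2 : 0 < (1 - q' ^ 2) * vr ν / 4 := by
      have : 0 < 1 - q' ^ 2 := by nlinarith
      positivity
    by_contra h3
    push Not at h3
    nlinarith
  have hst := hSTAB ν d ρ C q' (σ / 2) γ e2 (wz (addL ψ K l M) z) s' s hvr hρ hwc hq'0 hq'1 hwq
    hσ2 hγ0 hγ1 hs' hsn2 hpz he2c (by
      intro k
      rw [UU_apply hCX hUUC ρ hρ _ hzi hs'1, UU_apply hCX hUUC ρ hρ _ hzi (by linarith)]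
      exact (hgain _ (s' k) (s k) (norm_x_le hψ hl K hz k _) (im_le hzi _)
        ((s'.norm_coe_le_norm k).trans_lt hs'1) ((s.norm_coe_le_norm k).trans hsn2)).1)
  have hss : ‖s' - s‖ ≤ e3 := by
    have h1 : 28 * e2 / (σ / 2 * γ) ≤ e3 ^ 2 := by
      rw [div_le_iff₀ (by positivity)]
      linarith
    have h2 := hst.trans h1
    exact (pow_le_pow_iff_left₀ (norm_nonneg _) he3pos.le two_ne_zero).1 h2
  have hs'n : ‖s'‖ ≤ 1 - σ / 2 := by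
    have h1 := norm_add_le (s' - s) s
    rw [sub_add_cancel] at h1
    linarith
  have hW' := hWn z hz M s' hs'n
  have hWW' : ‖UU ρ (wz (addL ψ K l M) z) s - UU ρ (wz (addL ψ K l M) z) s'‖ ≤ L * e3 := by
    refine (UU_lip hSCL hCX hUUC ρ hρ _ hσ2 hzi hzi hsn2 hs'n).trans ?_
    rw [← hL, sub_self, norm_zero, mul_zero, zero_add, norm_sub_rev]
    exact mul_le_mul_of_nonneg_left hss hLpos.le
  refine ⟨by rw [norm_sub_rev]; linarith, ?_⟩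
  have h1 := zf_tri hZ hM hCay ν hq00' hq1 hUz hWz hW'
  have h2 := (zf_int hZ hM hCay ν hq00' hq1 hWz hW').2.trans (hdiv _ _ (norm_nonneg _) hWW')
  linarith

theorem step2 : S_STEPI → S_SC1 → S_SCL → S_GAIN → S_PSI → S_UUC → S_FIX → S_STAB → S_CX → S_PSIW →
    S_ZFW → S_STEPL := by
  intro hSTEP _hSC1 hSCL hGAIN _hPSI hUUC hFIX hSTAB hCX hPSIW hZFW d ψ ρ _ C σ l K 𝓧 hd hψ hvr hTB
    hρ htwo hl hσ hbnd e he
  have hO : S_OPR := Pool.Agent.W918.LL.main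
  have hCay : S_CAY := Pool.Agent.W335.LLCay.main
  have hZ : S_ZF := Pool.Agent.W762.LL.main hO Pool.Agent.W792.LL.DiaP.main
  have hM : S_MZ := Pool.Agent.W978.LL.main hO Pool.Agent.W792.LL.DiaP.main hZ hCay
  have hcm : Measurable cay := by
    unfold cay
    fun_prop
  have := prob_lev ψ l
  have hρ0s : ((lev ψ l).conv ρ) (Set.Icc (-(C + l)) (C + l))ᶜ = 0 := conv_supp hψ hl hρ
  have hσ4 : 0 < σ / 4 := by positivity
  obtain ⟨γ₀, hγ00, hγ01, hgain₀⟩ := hGAIN ((lev ψ l).conv ρ) (C + l) (‖K‖ + l + 4 * d + 1) (σ / 4)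
    hρ0s (conv_two hψ hl) hσ4
  obtain ⟨γ₁, hγ10, hγ11, hgain₁⟩ := hGAIN ρ C (‖K‖ + l + 4 * d + 1) (σ / 4) hρ htwo hσ4
  obtain ⟨q, hq⟩ : ∃ q, q = max (Real.sqrt (1 - γ₀)) (Real.sqrt (1 - γ₁)) := ⟨_, rfl⟩
  have hqs₀ : Real.sqrt (1 - γ₀) ≤ q := hq ▸ le_max_left _ _
  have hqs₁ : Real.sqrt (1 - γ₁) ≤ q := hq ▸ le_max_right _ _
  have hq0 : 0 ≤ q := (Real.sqrt_nonneg _).trans hqs₀
  have hq1 : q < 1 := by
    rw [hq]
    refine max_lt ?_ ?_ <;>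
    · rw [Real.sqrt_lt' one_pos]
      linarith
  obtain ⟨Lp, hLp0, hLp⟩ := hPSIW q hq0 hq1
  obtain ⟨Lz, hLz0, hLz⟩ := hZFW q hq0 hq1
  obtain ⟨A, hA⟩ : ∃ A, A = 8 / (σ / 4) ^ 2 := ⟨_, rfl⟩
  have hApos : 0 < A := by rw [hA]; positivity
  obtain ⟨B, hB⟩ : ∃ B, B = 1 / (1 - q) ^ 2 := ⟨_, rfl⟩
  have h1q : 0 < 1 - q := by linarith
  have hBpos : 0 < B := by rw [hB]; positivity
  have hdiv : ∀ a b : ℝ, 0 ≤ a → a ≤ b → a / (1 - q) ^ 2 ≤ b * B := by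
    intro a b _ hab
    rw [hB, mul_one_div]
    gcongr
  -- constants
  obtain ⟨θ, hθ⟩ : ∃ θ, θ = min (min 1 (e / 8)) (min (σ / 4) (e / (8 * A * B))) := ⟨_, rfl⟩
  have hθ0 : 0 < θ := by
    rw [hθ]
    exact lt_min (lt_min one_pos (by positivity)) (lt_min hσ4 (by positivity))
  have hθ1 : θ ≤ 1 := hθ ▸ (min_le_left _ _).trans (min_le_left _ _)
  have hθe : θ ≤ e / 8 := hθ ▸ (min_le_left _ _).trans (min_le_right _ _)
  have hθσ : θ ≤ σ / 4 := hθ ▸ (min_le_right _ _).trans (min_le_left _ _)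
  have hθB : A * θ * B ≤ e / 8 := by
    have h : θ ≤ e / (8 * A * B) := hθ ▸ (min_le_right _ _).trans (min_le_right _ _)
    rw [le_div_iff₀ (by positivity)] at h
    linarith
  obtain ⟨τ, hτdef⟩ : ∃ τ, τ = min (min (σ / 4 * γ₀ * θ ^ 2 / (28 * Lp))
    (σ / 4 * γ₁ * θ ^ 2 / (28 * Lp))) (e / (8 * Lz)) := ⟨_, rfl⟩
  have hτ0 : 0 < τ := by
    rw [hτdef]
    exact lt_min (lt_min (by positivity) (by positivity)) (by positivity)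
  have hτ₀ : 28 * (Lp * τ) ≤ σ / 4 * γ₀ * θ ^ 2 := by
    have h : τ ≤ σ / 4 * γ₀ * θ ^ 2 / (28 * Lp) :=
      hτdef ▸ (min_le_left _ _).trans (min_le_left _ _)
    rw [le_div_iff₀ (by positivity)] at h
    linarith
  have hτ₁ : 28 * (Lp * τ) ≤ σ / 4 * γ₁ * θ ^ 2 := by
    have h : τ ≤ σ / 4 * γ₁ * θ ^ 2 / (28 * Lp) :=
      hτdef ▸ (min_le_left _ _).trans (min_le_right _ _)
    rw [le_div_iff₀ (by positivity)] at h
    linarith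
  have hτz : Lz * τ ≤ e / 8 := by
    have h : τ ≤ e / (8 * Lz) := hτdef ▸ min_le_right _ _
    rw [le_div_iff₀ (by positivity)] at h
    linarith
  obtain ⟨e1, he1⟩ : ∃ e1, e1 = min (e / 8) (σ / 4) := ⟨_, rfl⟩
  have he10 : 0 < e1 := by
    rw [he1]
    exact lt_min (by positivity) hσ4
  have he1e : e1 ≤ e / 8 := he1 ▸ min_le_left _ _
  have he1σ : e1 ≤ σ / 4 := he1 ▸ min_le_right _ _
  -- the net
  obtain ⟨F, hF, hFX, hnet⟩ := reps hCay hcm hTB hτ0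
  have hev : ∀ Y ∈ F, ∀ᶠ M : ℕ in atTop, ∀ z ∈ Zs d, ∀ s s',
      IsFix (qlaw Y) ((lev ψ l).conv ρ) (wz K z) s → IsFix (qlaw Y) ρ (wz (addL ψ K l M) z) s' →
      ‖s - s'‖ ≤ e1 ∧ ∫ v, ‖Zf (UU ((lev ψ l).conv ρ) (wz K z) s) (fun x => cay (v x))
        - Zf (UU ρ (wz (addL ψ K l M) z) s') (fun x => cay (v x))‖ ∂(Pn (qlaw Y) (Fin d → ℤ))
          ≤ e1 := by
    intro Y hY
    obtain ⟨M₀, hM₀⟩ := hSTEP (qlaw Y) d ψ ρ C σ l K hd hψ (hvr Y (hFX hY)) hρ htwo hl hσ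
      (hbnd Y (hFX hY)) e1 he10
    filter_upwards [eventually_ge_atTop M₀] with M hM
    exact hM₀ M hM
  obtain ⟨M₀, hM₀⟩ := eventually_atTop.1 ((eventually_all_finite hF).2 hev)
  refine ⟨M₀, fun M hMM X hX z hz s s' hs hs' => ?_⟩
  obtain ⟨Y, hY, hXY⟩ := hnet X hX
  have hzi := hz.2.2.1
  have hD₀ : ∀ k, ‖(K k : ℂ) - z‖ ≤ ‖K‖ + l + 4 * d + 1 := norm_K_le hl K hz
  have hD₁ : ∀ k, ‖(addL ψ K l M k : ℂ) - z‖ ≤ ‖K‖ + l + 4 * d + 1 :=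
    fun k => norm_x_le hψ hl K hz k _
  obtain ⟨t, ht⟩ := (fix_lt hCX hFIX hρ0s hzi hD₀ (hvr Y (hFX hY))).1
  obtain ⟨t', ht'⟩ := (fix_lt hCX hFIX hρ hzi hD₁ (hvr Y (hFX hY))).1
  obtain ⟨htt, hZY⟩ := hM₀ M hMM Y hY z hz t t' ht ht'
  have hsn : ‖s‖ ≤ 1 - σ := hbnd X hX z hz s hs
  have htn : ‖t‖ ≤ 1 - σ := hbnd Y (hFX hY) z hz t ht
  have ht'n : ‖t'‖ ≤ 1 - 3 * σ / 4 := by
    have h1 := norm_add_le (t' - t) t
    rw [sub_add_cancel, norm_sub_rev] at h1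
    linarith
  have hst : ‖s - t‖ ≤ θ := near hCX hUUC hFIX hSTAB hρ0s hzi hD₀ hσ4 hγ00 hγ01 hgain₀ hq0 hqs₀
    hLp hτ0.le hXY (hvr X hX) hs ht (by linarith) hθ0 hθ1 hτ₀
  have hst' : ‖s' - t'‖ ≤ θ := near hCX hUUC hFIX hSTAB hρ hzi hD₁ hσ4 hγ10 hγ11 hgain₁ hq0 hqs₁
    hLp hτ0.le hXY (hvr X hX) hs' ht' (by linarith) hθ0 hθ1 hτ₁
  have hs'n : ‖s'‖ ≤ 1 - σ / 2 := by
    have h1 := norm_add_le (s' - t') t'
    rw [sub_add_cancel] at h1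
    linarith
  have hss : ‖s - s'‖ ≤ e := by
    have h1 := norm_sub_le_norm_sub_add_norm_sub s t s'
    have h2 := norm_sub_le_norm_sub_add_norm_sub t t' s'
    rw [norm_sub_rev t' s'] at h2
    linarith
  have hUs : ‖UU ((lev ψ l).conv ρ) (wz K z) s‖ ≤ q :=
    UU_norm hCX hUUC hρ0s hzi hD₀ hσ4 hgain₀ hq0 hqs₀ (by linarith)
  have hUt : ‖UU ((lev ψ l).conv ρ) (wz K z) t‖ ≤ q :=
    UU_norm hCX hUUC hρ0s hzi hD₀ hσ4 hgain₀ hq0 hqs₀ (by linarith)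
  have hUs' : ‖UU ρ (wz (addL ψ K l M) z) s'‖ ≤ q :=
    UU_norm hCX hUUC hρ hzi hD₁ hσ4 hgain₁ hq0 hqs₁ (by linarith)
  have hUt' : ‖UU ρ (wz (addL ψ K l M) z) t'‖ ≤ q :=
    UU_norm hCX hUUC hρ hzi hD₁ hσ4 hgain₁ hq0 hqs₁ (by linarith)
  have hUU : ‖UU ((lev ψ l).conv ρ) (wz K z) s - UU ((lev ψ l).conv ρ) (wz K z) t‖ ≤ A * θ := by
    refine (UU_lip hSCL hCX hUUC ((lev ψ l).conv ρ) hρ0s _ hσ4 hzi.le hzi.le
      (show ‖s‖ ≤ 1 - σ / 4 by linarith) (show ‖t‖ ≤ 1 - σ / 4 by linarith)).trans ?_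
    rw [← hA, sub_self, norm_zero, mul_zero, zero_add]
    exact mul_le_mul_of_nonneg_left hst hApos.le
  have hUU' : ‖UU ρ (wz (addL ψ K l M) z) t' - UU ρ (wz (addL ψ K l M) z) s'‖ ≤ A * θ := by
    refine (UU_lip hSCL hCX hUUC ρ hρ _ hσ4 hzi.le hzi.le
      (show ‖t'‖ ≤ 1 - σ / 4 by linarith) (show ‖s'‖ ≤ 1 - σ / 4 by linarith)).trans ?_
    rw [← hA, sub_self, norm_zero, mul_zero, zero_add, norm_sub_rev]
    exact mul_le_mul_of_nonneg_left hst' hApos.le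
  refine ⟨hss, ?_⟩
  have h1 := zf_tri hZ hM hCay (qlaw X) hq0 hq1 hUs hUt hUs'
  have h2 := zf_tri hZ hM hCay (qlaw X) hq0 hq1 hUt hUt' hUs'
  have h3 := (zf_int hZ hM hCay (qlaw X) hq0 hq1 hUs hUt).2.trans (hdiv _ _ (norm_nonneg _) hUU)
  have h4 := (zf_int hZ hM hCay (qlaw X) hq0 hq1 hUt' hUs').2.trans
    (hdiv _ _ (norm_nonneg _) hUU')
  have h5 := hLz X Y τ hτ0.le hXY d _ _ hUt hUt'
  linarith

/-- The step for any level function. -/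
theorem main0 : S_SC1 → S_SCL → S_GAIN → S_PSI → S_UUC → S_FIX → S_STAB → S_CX → S_UNI → S_C1 →
    S_PSIW → S_ZFW → S_STEPL := by
  intro a1 a2 a3 a4 a5 a6 a7 a8 a9 a10 a11 a12
  exact step2 (stepi a1 a2 a3 a4 a5 a6 a7 a8 a9 a10) a1 a2 a3 a4 a5 a6 a7 a8 a11 a12

end

end Pool.Agent.W737.WA.Stepl
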